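import Pool.Agent.TH337.LD.Main2

/-!
MP_92d530_an: the strong form of Landis' conjecture for potentials periodic in one direction.
-/

namespace Pool.Agent.Results.MP_92d530_an.PeriodicDirection

open MeasureTheory
open scoped Real RealInnerProductSpace

/-- Weak solutions of `-Δu + Vu = 0` on `ℝ^d`: `∫ (-u Δφ + V u φ) = 0` for all complex-valued
compactly supported `C²` functions `φ`. -/
def IsWeakSolution {d : ℕ} (V u : EuclideanSpace ℝ (Fin d) → ℂ) : Prop :=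
  ∀ φ : EuclideanSpace ℝ (Fin d) → ℂ, ContDiff ℝ 2 φ → HasCompactSupport φ →
    ∫ x, (-(u x * ∑ i : Fin d, iteratedFDeriv ℝ 2 φ x (fun _ => EuclideanSpace.single i (1 : ℝ)))
      + V x * u x * φ x) = 0

theorem result {d : ℕ} {M M₀ C ε K a : ℝ} (ha : 0 < a) (hε : 0 < ε) (hC : a * M / (2 * π) < C)
    {V₀ : EuclideanSpace ℝ (Fin d) → ℝ} {V₁ u : EuclideanSpace ℝ (Fin d) → ℂ}
    (hV₀ : Measurable V₀) (hV₁ : Measurable V₁) (hum : Measurable u)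
    (hM₀ : ∀ x, |V₀ x| ≤ M₀) (hM : ∀ x, ‖V₁ x‖ ≤ M)
    {e : EuclideanSpace ℝ (Fin d)} (he : ‖e‖ = 1)
    (hinv : ∀ (t : ℝ) (x : EuclideanSpace ℝ (Fin d)), V₀ (x + t • e) = V₀ x)
    (hper : ∀ x, V₁ (x + a • e) = V₁ x)
    (hu : ∀ x, ‖u x‖ ≤ K * Real.exp (-(ε * ‖x‖)))
    (hu' : ∀ x, ‖u x‖ ≤ K * Real.exp (-(C * ⟪e, x⟫)))
    (hw : IsWeakSolution (fun x => (V₀ x : ℂ) + V₁ x) u) :
    ∀ᵐ x, u x = 0 :=
  Pool.Agent.TH337.LD.landis_osc ha hε hC hV₀ hV₁ hum hM₀ hM he hinv hper hu hu' hw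

end Pool.Agent.Results.MP_92d530_an.PeriodicDirection
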